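import Mathlib

namespace Pool.Agent.H.MP_f3efb8_co

open Finset

/-- vertices -/
abbrev V := Fin 3 ⊕ Fin 9 ⊕ Fin 24 × Fin 13

/-- attachment points -/
def tri (c : Fin 24) (i : ℕ) : Fin 9 :=
  ⟨[216, 594, 532, 73, 119, 713, 381, 102, 534, 67, 175, 571, 77, 284, 581, 285, 429, 33, 673, 79,
    214, 116, 467, 125].getD c 0 / 9 ^ i % 9, Nat.mod_lt _ (by norm_num)⟩

/-- adjacency inside a gadget -/
def ca (i j : Fin 13) : Bool :=
  i != j && !(decide (i.1 < 3) && decide (j.1 < 3)) &&
    !(decide (3 ≤ i.1) && decide (3 ≤ j.1) && (i.1 - 3) / 2 == (j.1 - 3) / 2)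

/-- cubic part inside a gadget -/
def fa (i j : Fin 13) : Bool :=
  ([4224, 1344, 4624, 2688, 548, 6160, 1282, 1033, 2114, 28, 194, 296, 37].getD i 0).testBit j

/-- adjacency -/
def g : V → V → Bool
  | .inl s, .inl s' => s != s'
  | .inl _, .inr (.inl _) => true
  | .inr (.inl _), .inl _ => true
  | .inr (.inl t), .inr (.inr p) => decide (p.2.1 < 3) && tri p.1 p.2 == t
  | .inr (.inr p), .inr (.inl t) => decide (p.2.1 < 3) && tri p.1 p.2 == t
  | .inr (.inr p), .inr (.inr q) => p.1 == q.1 && ca p.2 q.2
  | _, _ => false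

/-- adjacency of the factor -/
def h : V → V → Bool
  | .inl s, .inr (.inl t) => s.1 != t.1
  | .inr (.inl t), .inl s => s.1 != t.1
  | .inr (.inl t), .inr (.inr p) => p.2.1 != 0 && decide (p.2.1 < 3) && tri p.1 p.2 == t
  | .inr (.inr p), .inr (.inl t) => p.2.1 != 0 && decide (p.2.1 < 3) && tri p.1 p.2 == t
  | .inr (.inr p), .inr (.inr q) => p.1 == q.1 && (ca p.2 q.2 && !fa p.2 q.2)
  | _, _ => false

theorem ca_symm : ∀ i j, ca i j = ca j i := by decide +kernel

theorem fa_symm : ∀ i j, fa i j = fa j i := by decide +kernel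

theorem ca_irr : ∀ i, ca i i = false := by decide +kernel

theorem g_symm (u v : V) : g u v = g v u := by
  rcases u with s | t | p <;> rcases v with s' | t' | q <;> simp only [g]
  · exact bne_comm
  · rw [ca_symm, BEq.comm]

theorem h_symm (u v : V) : h u v = h v u := by
  rcases u with s | t | p <;> rcases v with s' | t' | q <;> simp only [h]
  rw [ca_symm, fa_symm, BEq.comm]

theorem g_irr (u : V) : g u u = false := by
  rcases u with s | t | p <;> simp [g, ca_irr]

theorem h_le (u v : V) (e : h u v = true) : g u v = true := by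
  rcases u with s | t | p <;> rcases v with s' | t' | q <;> simp_all [g, h]

theorem deg_split (f : V → Bool) : (univ.filter (fun v => f v = true)).card =
    ∑ s, (f (.inl s)).toNat + (∑ t, (f (.inr (.inl t))).toNat +
      ∑ c, ∑ i, (f (.inr (.inr (c, i)))).toNat) := by
  rw [card_filter, Fintype.sum_sum_type, Fintype.sum_sum_type, Fintype.sum_prod_type]
  have : ∀ b : Bool, (if b = true then 1 else 0) = b.toNat := by decide
  simp only [this]

theorem coll (c : Fin 24) (f : Fin 13 → Bool) :
    ∑ c', ∑ i, (c == c' && f i).toNat = ∑ i, (f i).toNat := by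
  rw [sum_eq_single c]
  · simp
  · intro b _ hb
    have : (c == b) = false := by simpa using hb.symm
    simp [this]
  · simp

theorem g_deg (u : V) : (univ.filter (fun v => g u v = true)).card = 11 := by
  rw [deg_split]
  rcases u with s | t | ⟨c, i⟩
  · revert s; decide +kernel
  · revert t; decide +kernel
  · simp only [g, coll]
    revert c i; decide +kernel

theorem h_deg (u : V) : (univ.filter (fun v => h u v = true)).card = 8 := by
  rw [deg_split]
  rcases u with s | t | ⟨c, i⟩
  · revert s; decide +kernel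
  · revert t; decide +kernel
  · simp only [h, coll]
    revert c i; decide +kernel

theorem att : ∀ c : Fin 24, ∑ i : Fin 13, ∑ t : Fin 9,
    (decide (i.1 < 3) && tri c i == t).toNat = 3 := by decide +kernel

theorem tri_inj : ∀ (c : Fin 24) (i j : Fin 3), tri c i = tri c j → i = j := by decide +kernel

theorem mid : ∀ i j : Fin 13, 3 ≤ (univ.filter (fun k => (ca i k && ca k j) = true)).card := by
  decide +kernel

/-- the graph -/
def G : SimpleGraph V where
  Adj u v := g u v = true
  symm := ⟨fun u v e => by rwa [g_symm]⟩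
  loopless := ⟨fun u => by simp [g_irr]⟩

/-- the factor -/
def F : SimpleGraph V where
  Adj u v := h u v = true
  symm := ⟨fun u v e => by rwa [h_symm]⟩
  loopless := ⟨fun u e => by simpa [g_irr] using h_le u u e⟩

theorem avoid (D : Finset V) (hD : D.card < 3) {α : Type*} [Fintype α] (e : α → V)
    (he : Function.Injective e) (hα : 3 ≤ Fintype.card α) : ∃ a, e a ∉ D := by
  by_contra hc
  push Not at hc
  have := card_le_card_of_injOn (s := univ) (t := D) e (fun a _ => hc a) he.injOn
  rw [card_univ] at this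
  omega

theorem conn (D : Finset V) (hD : D.card < 3) : (G.induce ((D : Set V)ᶜ)).Connected := by
  classical
  obtain ⟨r, hr⟩ := avoid D hD (Sum.inl : Fin 3 → V) Sum.inl_injective (by simp)
  have step : ∀ (u v : V) (hu : u ∉ D) (hv : v ∉ D), g u v = true →
      (G.induce ((D : Set V)ᶜ)).Reachable ⟨u, hu⟩ ⟨v, hv⟩ :=
    fun u v hu hv e => SimpleGraph.Adj.reachable e
  rw [SimpleGraph.connected_iff_exists_forall_reachable]
  refine ⟨⟨.inl r, hr⟩, ?_⟩
  rintro ⟨s | t | ⟨c, i⟩, hv⟩
  · by_cases e : r = s
    · subst e; rfl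
    · exact step _ _ hr hv (by simpa [g] using e)
  · exact step _ _ hr hv rfl
  · obtain ⟨j, hj1, hj2⟩ : ∃ j : Fin 3, (.inr (.inl (tri c j)) : V) ∉ D ∧
        (.inr (.inr (c, j.castLE (by norm_num))) : V) ∉ D := by
      by_contra hc
      push Not at hc
      have := card_le_card_of_injOn (s := (univ : Finset (Fin 3))) (t := D)
        (fun j => if (.inr (.inl (tri c j)) : V) ∈ D then .inr (.inl (tri c j))
          else .inr (.inr (c, j.castLE (by norm_num)))) (fun j _ => by
            beta_reduce
            split_ifs with h1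
            · exact h1
            · exact hc j h1) (fun a _ b _ e => by
            beta_reduce at e
            split_ifs at e
            · exact tri_inj c a b (by simpa using e)
            · simp at e
            · simp at e
            · simpa using e)
      simp at this
      omega
    obtain ⟨⟨k, hk0⟩, hk⟩ := avoid D hD (fun k : {k // (ca (j.castLE (by norm_num)) k && ca k i) = true} =>
      (.inr (.inr (c, k.1)) : V)) (fun a b e => Subtype.ext (by simpa using e))
      (by rw [Fintype.card_subtype]; exact mid _ _)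
    obtain ⟨k3, k4⟩ := Bool.and_eq_true_iff.1 hk0
    refine ((step _ _ hr hj1 rfl).trans (step _ _ hj1 hj2 ?_)).trans
      ((step _ _ hj2 hk ?_).trans (step _ _ hk hv ?_))
    · simp [g]
    · simpa [g] using k3
    · simpa [g] using k4

theorem even_sum {α : Type*} [Fintype α] (a : α → α → ℕ) (h1 : ∀ x y, a x y = a y x)
    (h2 : ∀ x, a x x = 0) : Even (∑ x, ∑ y, a x y) := by
  classical
  have key : ∀ s : Finset α, Even (∑ x ∈ s, ∑ y ∈ s, a x y) := by
    intro s
    induction s using Finset.induction_on with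
    | empty => simp
    | insert z s hz ih =>
      simp only [sum_insert hz, sum_add_distrib, h2, zero_add]
      rw [sum_congr rfl fun x _ => h1 x z, ← add_assoc]
      exact (Even.add_self _).add ih
  exact key univ

theorem miss (a : V → V → ℕ) (h1 : ∀ x y, a x y = a y x) (h2 : ∀ x y, a x y ≤ (g x y).toNat)
    (h3 : ∀ x, ∑ y, a x y = 8) (s s' : Fin 3) : a (.inl s) (.inl s') = 0 := by
  have z : ∀ x y, g x y = false → a x y = 0 := fun x y e => by
    have := h2 x y
    rw [e] at this
    simpa using this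
  simp only [Fintype.sum_sum_type, Fintype.sum_prod_type] at h3
  have hc : ∀ c : Fin 24, ∑ i, ∑ t, a (.inr (.inr (c, i))) (.inr (.inl t)) ≤ 2 := by
    intro c
    have e1 : ∑ i, ∑ t, a (.inr (.inr (c, i))) (.inr (.inl t)) ≤ 3 := by
      exact le_of_le_of_eq (sum_le_sum fun i _ => sum_le_sum fun t _ => h2 _ _) (att c)
    have e2 := even_sum (fun i j => a (.inr (.inr (c, i))) (.inr (.inr (c, j))))
      (fun _ _ => h1 _ _) (fun _ => z _ _ (g_irr _))
    have e3 : ∀ i, ∑ t, a (.inr (.inr (c, i))) (.inr (.inl t))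
        + ∑ j, a (.inr (.inr (c, i))) (.inr (.inr (c, j))) = 8 := by
      intro i
      have := h3 (.inr (.inr (c, i)))
      rw [sum_eq_zero (fun s _ => z _ _ rfl), zero_add, sum_eq_single c (fun b _ hb =>
        sum_eq_zero fun j _ => z _ _ (by simp [g, hb.symm])) (by simp)] at this
      exact this
    have e4 := sum_congr (rfl : (univ : Finset (Fin 13)) = univ) fun i _ => e3 i
    rw [sum_add_distrib] at e4
    simp only [sum_const, card_univ, Fintype.card_fin, smul_eq_mul] at e4
    obtain ⟨m, hm⟩ := e2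
    omega
  have t1 : ∑ t, ∑ c, ∑ i, a (.inr (.inl t)) (.inr (.inr (c, i))) ≤ 48 := by
    rw [sum_comm]
    calc _ ≤ ∑ _c : Fin 24, 2 := sum_le_sum fun c _ => by
          rw [sum_comm]
          simpa only [h1 (.inr (.inl _))] using hc c
      _ = 48 := by simp
  have t2 := sum_congr (rfl : (univ : Finset (Fin 9)) = univ) fun t _ => h3 (.inr (.inl t))
  have t3 := sum_congr (rfl : (univ : Finset (Fin 3)) = univ) fun s _ => h3 (.inl s)
  have t4 : ∑ t : Fin 9, ∑ t' : Fin 9, a (.inr (.inl t)) (.inr (.inl t')) = 0 :=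
    sum_eq_zero fun _ _ => sum_eq_zero fun _ _ => z _ _ rfl
  have t5 : ∑ t : Fin 9, ∑ s : Fin 3, a (.inr (.inl t)) (.inl s)
      = ∑ s : Fin 3, ∑ t : Fin 9, a (.inl s) (.inr (.inl t)) := by
    rw [sum_comm]
    simp only [h1 (.inr (.inl _))]
  simp only [sum_add_distrib, sum_const, card_univ, Fintype.card_fin, smul_eq_mul] at t2 t3
  have t6 : ∑ s : Fin 3, ∑ s' : Fin 3, a (.inl s) (.inl s') = 0 := by omega
  exact sum_eq_zero_iff.1 (sum_eq_zero_iff.1 t6 s (mem_univ _)) s' (mem_univ _)

end Pool.Agent.H.MP_f3efb8_co
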